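import Pool.Agent.V8H18.CL.Weyl
import Pool.Agent.H446R2.CycleCount

set_option autoImplicit false

/-!
The values of integral polynomials in sets of integers with few elements outside of Bohr sets,
irrational frequencies.
-/

namespace Pool.Agent.V8H18.CL

open Finset Polynomial Filter Topology
open Pool.Agent.Helper602.MK (ee)
open Pool.Agent.H373R2.NB (Ph IW IW_all Ph_poly)

lemma weyl_irr {α : ℝ} (hα : Irrational α) (f : ℤ[X]) (hf : 1 ≤ f.natDegree) (u : ℝ) (hu : 1 ≤ u) (h : ℕ)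
    (hh : 1 ≤ h) : ∀ᶠ N : ℕ in atTop,
      ‖∑ n ∈ range N, ee (h * (((f.eval (n : ℤ) : ℤ) : ℝ) * α))‖ ≤ N / u := by
  obtain ⟨c₀, m, hc₀, hIW⟩ := IW_all f.natDegree hf
  set d := f.natDegree with hd
  set l : ℤ := f.coeff d with hl
  have hl0 : l ≠ 0 := by
    rw [hl, hd, ← Polynomial.leadingCoeff, Ne, Polynomial.leadingCoeff_eq_zero]
    intro h0
    rw [hd, h0, Polynomial.natDegree_zero] at hf
    omega
  have hu0 : 0 < u := by linarith
  set Q : ℕ := ⌊(c₀ : ℝ) * u ^ m⌋₊ with hQ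
  obtain ⟨ε, hε0, -, hsep⟩ := Pool.Agent.H446R2.CS.exists_sep hα (Q * h * d.factorial * l.natAbs + 1)
  obtain ⟨N₀, hN₀⟩ := exists_nat_gt ((c₀ : ℝ) * u ^ m / ε)
  filter_upwards [eventually_ge_atTop (max N₀ 1)] with N hN
  have hN1 : 1 ≤ N := (le_max_right _ _).trans hN
  have hNr : (1 : ℝ) ≤ N := by exact_mod_cast hN1
  have hN00 : (0 : ℝ) < N := by linarith
  by_contra hcon
  push Not at hcon
  rw [div_lt_iff₀ hu0] at hcon
  have hPh := Ph_poly d f le_rfl (h * α)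
  have hle : (N : ℝ) ≤ u * ‖∑ n ∈ range N, ee ((h * α) * ((f.eval (n : ℤ) : ℤ) : ℝ))‖ := by
    have e : ∀ n : ℕ, (h * α) * ((f.eval (n : ℤ) : ℤ) : ℝ) = (h : ℝ) * (((f.eval (n : ℤ) : ℤ) : ℝ) * α) := by
      intro n; ring
    simp only [e]
    linarith
  obtain ⟨q, hq1, hqu, a, hqa⟩ := hIW N u _ _ hN1 hu hPh hle
  have hqQ : q ≤ Q := Nat.le_floor hqu
  set t : ℕ := q * h * d.factorial * l.natAbs with ht
  have hlabs : (l.natAbs : ℝ) = |(l : ℝ)| := by rw [Nat.cast_natAbs, Int.cast_abs]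
  have ht1 : 1 ≤ t := by
    rw [ht]
    have := Int.natAbs_pos.2 hl0
    have h5 := Nat.factorial_pos d
    exact Nat.mul_pos (Nat.mul_pos (Nat.mul_pos hq1 hh) h5) this
  have htQ : t < Q * h * d.factorial * l.natAbs + 1 := by
    rw [ht, Nat.lt_succ_iff]
    exact Nat.mul_le_mul_right _ (Nat.mul_le_mul_right _ (Nat.mul_le_mul_right _ hqQ))
  have hr : ∃ m' : ℤ, |(t : ℝ) * α - m'| ≤ c₀ * u ^ m / (N : ℝ) ^ d := by
    rcases lt_or_gt_of_ne hl0 with hneg | hpos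
    · refine ⟨-a, ?_⟩
      have e : (t : ℝ) * α - ((-a : ℤ) : ℝ) = -(q * (h * α * ((d.factorial : ℝ) * (l : ℝ))) - a) := by
        rw [ht]; push_cast; rw [hlabs, abs_of_neg (by exact_mod_cast hneg)]; ring
      rw [e, abs_neg]
      exact hqa
    · refine ⟨a, ?_⟩
      have e : (t : ℝ) * α - (a : ℝ) = q * (h * α * ((d.factorial : ℝ) * (l : ℝ))) - a := by
        rw [ht]; push_cast; rw [hlabs, abs_of_pos (by exact_mod_cast hpos)]; ring
      rw [e]
      exact hqa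
  obtain ⟨m', hm'⟩ := hr
  have h1 := (hsep t ht1 htQ m').trans hm'
  have h8 : (N : ℝ) ≤ (N : ℝ) ^ d := le_self_pow₀ hNr (by omega)
  have h9 : (c₀ : ℝ) * u ^ m / (N : ℝ) ^ d ≤ c₀ * u ^ m / N :=
    div_le_div_of_nonneg_left (by positivity) hN00 h8
  have h10 : (N₀ : ℝ) ≤ N := by exact_mod_cast (le_max_left N₀ 1).trans hN
  have h11 : (c₀ : ℝ) * u ^ m / ε < N := lt_of_lt_of_le hN₀ h10
  rw [div_lt_iff₀ hε0] at h11
  have h12 : 2 * ε ≤ c₀ * u ^ m / N := h1.trans h9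
  rw [le_div_iff₀ hN00] at h12
  nlinarith

lemma eval_bound (f : ℤ[X]) : ∃ A : ℕ, 1 ≤ A ∧ ∀ N : ℕ, 1 ≤ N → ∀ n : ℕ, n < N →
    |f.eval (n : ℤ)| ≤ ((A * N ^ f.natDegree : ℕ) : ℤ) := by
  refine ⟨∑ i ∈ range (f.natDegree + 1), (f.coeff i).natAbs + 1, by omega, ?_⟩
  intro N hN n hn
  rw [eval_eq_sum_range]
  have h1 : |∑ i ∈ range (f.natDegree + 1), f.coeff i * (n : ℤ) ^ i| ≤
      ∑ i ∈ range (f.natDegree + 1), ((f.coeff i).natAbs : ℤ) * (N : ℤ) ^ f.natDegree := by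
    refine (abs_sum_le_sum_abs _ _).trans (sum_le_sum fun i hi => ?_)
    rw [mem_range] at hi
    rw [abs_mul, abs_pow, Int.natCast_natAbs]
    apply mul_le_mul_of_nonneg_left _ (abs_nonneg _)
    have h2 : |(n : ℤ)| ≤ N := by rw [abs_of_nonneg (by positivity)]; exact_mod_cast hn.le
    calc |(n : ℤ)| ^ i ≤ (N : ℤ) ^ i := pow_le_pow_left₀ (abs_nonneg _) h2 i
      _ ≤ _ := pow_le_pow_right₀ (by exact_mod_cast hN) (by omega)
  refine h1.trans ?_
  rw [← sum_mul]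
  push_cast
  have h3 : (0 : ℤ) ≤ (N : ℤ) ^ f.natDegree := by positivity
  nlinarith

/-- **Density zero.** -/
theorem density {α : ℝ} (hα : Irrational α) {C : ℝ} {S : Set ℤ}
    (hS : ∀ (P : ℕ) (ρ : ℝ), 1 ≤ P → 0 < ρ → ρ ≤ 1 → ∀ E : Finset ℤ,
      (∀ s ∈ E, s ∈ S ∧ |s| ≤ P ∧ ∀ m : ℤ, ρ ≤ |(s : ℝ) * α - m|) →
        (E.card : ℝ) ≤ C / ρ * (1 + Real.log P + Real.log (1 / ρ)) + 1)
    (f : ℤ[X]) (hf : 1 ≤ f.natDegree) :
    Tendsto (fun N : ℕ => ({n : ℕ | n < N ∧ f.eval (n : ℤ) ∈ S}.ncard : ℝ) / N) atTop (𝓝 0) := by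
  classical
  obtain ⟨A, hA1, hA⟩ := eval_bound f
  set d := f.natDegree with hd
  rw [Metric.tendsto_atTop]
  intro ε hε
  obtain ⟨J, hJ⟩ := exists_nat_gt (max 1 (16 / ε))
  have hJ1r : (1 : ℝ) < J := lt_of_le_of_lt (le_max_left _ _) hJ
  have hJ1 : 1 ≤ J := by exact_mod_cast hJ1r.le
  have hJ0 : (0 : ℝ) < J := by linarith
  have hJε : 16 / ε < J := lt_of_le_of_lt (le_max_right _ _) hJ
  set ρ : ℝ := 1 / (8 * J) with hρ
  have hρ0 : 0 < ρ := by positivity
  have hρ1 : ρ ≤ 1 := by rw [hρ, div_le_one (by positivity)]; linarith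
  have hW : ∀ᶠ N : ℕ in atTop, ∀ h ∈ Finset.Ico 1 J,
      ‖∑ n ∈ range N, ee (h * (((f.eval (n : ℤ) : ℤ) : ℝ) * α))‖ ≤ N / J := by
    rw [Filter.eventually_all_finset]
    intro h hh
    exact weyl_irr hα f hf J hJ1r.le h (mem_Ico.1 hh).1
  have hlim : Tendsto (fun N : ℕ => ((d : ℝ) * (C / ρ * (1 + (Real.log A + d * Real.log N) + Real.log (1 / ρ)) + 1)) /
      (N : ℝ)) atTop (𝓝 0) := by
    have h1 : Tendsto (fun x : ℝ => ((d : ℝ) * (C / ρ * (1 + (Real.log A + d * Real.log x) + Real.log (1 / ρ)) + 1)) / x)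
        atTop (𝓝 0) := by
      have h2 : Tendsto (fun x : ℝ => Real.log x / x) atTop (𝓝 0) := by
        have := Real.isLittleO_log_id_atTop.tendsto_div_nhds_zero
        simpa using this
      have h3 : Tendsto (fun x : ℝ => ((d : ℝ) * (C / ρ * (1 + Real.log A + Real.log (1 / ρ)) + 1)) / x) atTop (𝓝 0) :=
        tendsto_const_nhds.div_atTop tendsto_id
      have h4 := h3.add (h2.const_mul ((d : ℝ) * (C / ρ) * d))
      rw [mul_zero, add_zero] at h4
      refine h4.congr (fun x => ?_)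
      ring
    exact h1.comp tendsto_natCast_atTop_atTop
  have hlim2 : ∀ᶠ N : ℕ in atTop, ((d : ℝ) * (C / ρ * (1 + (Real.log A + d * Real.log N) + Real.log (1 / ρ)) + 1)) /
      (N : ℝ) < ε / 4 := by
    have := hlim.eventually (gt_mem_nhds (show (0 : ℝ) < ε / 4 by linarith))
    exact this
  obtain ⟨N₀, hN₀⟩ := eventually_atTop.1 (hW.and (hlim2.and (eventually_ge_atTop 1)))
  refine ⟨N₀, fun N hN => ?_⟩
  obtain ⟨hWN, hlN, hN1⟩ := hN₀ N hN
  have hNr : (1 : ℝ) ≤ N := by exact_mod_cast hN1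
  have hN00 : (0 : ℝ) < N := by linarith
  rw [Real.dist_eq, sub_zero, abs_of_nonneg (by positivity), div_lt_iff₀ hN00]
  set F : Finset ℕ := (range N).filter (fun n => f.eval (n : ℤ) ∈ S) with hF
  have hset : {n : ℕ | n < N ∧ f.eval (n : ℤ) ∈ S} = (F : Set ℕ) := by
    ext n
    rw [hF, Finset.coe_filter]
    simp only [Set.mem_ofPred_eq, mem_range]
  rw [hset, Set.ncard_coe_finset]
  set G : Finset ℕ := F.filter (fun n => ∃ m : ℤ, |((f.eval (n : ℤ) : ℤ) : ℝ) * α - m| ≤ ρ) with hG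
  set R : Finset ℕ := F.filter (fun n => ¬ ∃ m : ℤ, |((f.eval (n : ℤ) : ℤ) : ℝ) * α - m| ≤ ρ) with hR
  have hsplit : G.card + R.card = F.card := card_filter_add_card_filter_not (s := F) _
  have hGc := near_count (fun n => ((f.eval (n : ℤ) : ℤ) : ℝ) * α) N J hJ1 (M := N / J) (ρ := ρ) (by positivity)
    (by rw [hρ]; field_simp; rfl) (fun h h1 h2 => hWN h (mem_Ico.2 ⟨h1, h2⟩)) G (by
      intro n hn
      rw [hG, mem_filter, hF, mem_filter, mem_range] at hn
      exact ⟨hn.1.1, hn.2⟩)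
  have hGc2 : (G.card : ℝ) ≤ ε / 2 * N := by
    refine hGc.trans ?_
    have e : 4 * (N : ℝ) / J + 4 * (N / J) = 8 / J * N := by ring
    rw [e]
    apply mul_le_mul_of_nonneg_right _ hN00.le
    rw [div_le_iff₀ hJ0]
    rw [div_lt_iff₀ hε] at hJε
    linarith
  have hf0 : f ≠ 0 := by
    intro h0
    rw [hd, h0, natDegree_zero] at hf
    omega
  have hfib : R.card ≤ d * (R.image (fun n : ℕ => f.eval (n : ℤ))).card := by
    apply card_le_mul_card_image
    intro s _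
    have h1 : ((R.filter (fun n : ℕ => f.eval (n : ℤ) = s)).image (fun n : ℕ => (n : ℤ))) ⊆
        (f - Polynomial.C s).roots.toFinset := by
      intro x hx
      rw [mem_image] at hx
      obtain ⟨n, hn, rfl⟩ := hx
      rw [mem_filter] at hn
      have hne : f - Polynomial.C s ≠ 0 := by
        intro h0
        have := natDegree_sub_C (p := f) (a := s)
        rw [h0, natDegree_zero] at this
        omega
      rw [Multiset.mem_toFinset, mem_roots hne, IsRoot.def, eval_sub, eval_C, hn.2, sub_self]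
    have h2 := (card_le_card h1).trans (Multiset.toFinset_card_le _)
    rw [card_image_of_injOn (fun x _ y _ h => by exact_mod_cast h)] at h2
    refine h2.trans ((card_roots' _).trans ?_)
    rw [natDegree_sub_C]
  have hE := hS (A * N ^ d) ρ (Nat.mul_pos hA1 (pow_pos hN1 d)) hρ0 hρ1 (R.image (fun n : ℕ => f.eval (n : ℤ))) (by
    intro s hs
    rw [mem_image] at hs
    obtain ⟨n, hn, rfl⟩ := hs
    rw [hR, mem_filter, hF, mem_filter, mem_range] at hn
    refine ⟨hn.1.2, hA N hN1 n hn.1.1, fun m => ?_⟩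
    have := hn.2
    push Not at this
    exact (this m).le)
  have hlog : Real.log ((A * N ^ d : ℕ) : ℝ) = Real.log A + d * Real.log N := by
    have hAr : (0 : ℝ) < A := by exact_mod_cast hA1
    push_cast
    rw [Real.log_mul hAr.ne' (by positivity), Real.log_pow]
  rw [hlog] at hE
  have hRc : (R.card : ℝ) ≤ ε / 4 * N := by
    have h1 : (R.card : ℝ) ≤ d * ((R.image (fun n : ℕ => f.eval (n : ℤ))).card : ℝ) := by exact_mod_cast hfib
    have h2 := mul_le_mul_of_nonneg_left hE (Nat.cast_nonneg (α := ℝ) d)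
    rw [div_lt_iff₀ hN00] at hlN
    linarith
  have h1 : (F.card : ℝ) = (G.card : ℝ) + R.card := by exact_mod_cast hsplit.symm
  rw [h1]
  nlinarith

end Pool.Agent.V8H18.CL
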