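import Mathlib

set_option autoImplicit false

/-!
Counting the elements of a set of integers in intervals, when only few elements of the set have
multiples `s α` far from the integers.
-/

namespace Pool.Agent.V8H18.CL

open Finset

/-- points with spacing -/
lemma spacing {α δ r : ℝ} (hδ : 0 < δ) (hr : 0 ≤ r) {L : ℕ}
    (hsp : ∀ t : ℕ, 1 ≤ t → t ≤ L → ∀ m : ℤ, δ ≤ |(t : ℝ) * α - m|)
    (F : Finset ℤ) (hF : ∀ p ∈ F, ∃ m : ℤ, |(p : ℝ) * α - m| ≤ r)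
    (hL : ∀ p ∈ F, ∀ q ∈ F, p - q ≤ L) : (F.card : ℝ) ≤ 2 * r / δ + 1 := by
  classical
  choose! m hm using hF
  set v : ℤ → ℝ := fun p => (p : ℝ) * α - m p with hv
  set g : ℤ → ℤ := fun p => ⌊(v p + r) / δ⌋ with hg
  have hmem : ∀ p ∈ F, g p ∈ Finset.Icc (0 : ℤ) ⌊2 * r / δ⌋ := by
    intro p hp
    have h1 := abs_le.1 (hm p hp)
    rw [mem_Icc]
    constructor
    · apply Int.floor_nonneg.2
      apply div_nonneg _ hδ.le
      have : v p = (p : ℝ) * α - m p := rfl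
      linarith [h1.1]
    · apply Int.floor_le_floor
      apply div_le_div_of_nonneg_right _ hδ.le
      have : v p = (p : ℝ) * α - m p := rfl
      linarith [h1.2]
  have hlt : ∀ p ∈ F, ∀ q ∈ F, q < p → g p ≠ g q := by
    intro p hp q hq hpq he
    have h1 : |(v p + r) / δ - (v q + r) / δ| < 1 := Int.abs_sub_lt_one_of_floor_eq_floor he
    have h2 : (v p + r) / δ - (v q + r) / δ = (v p - v q) / δ := by ring
    rw [h2, abs_div, abs_of_pos hδ, div_lt_one hδ] at h1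
    have ht : ((p - q).toNat : ℤ) = p - q := Int.toNat_of_nonneg (by omega)
    have h3 := hsp (p - q).toNat (by omega) (by have := hL p hp q hq; omega) (m p - m q)
    have h4 : (((p - q).toNat : ℕ) : ℝ) = (p : ℝ) - q := by
      have : (((p - q).toNat : ℤ) : ℝ) = ((p - q : ℤ) : ℝ) := by rw [ht]
      push_cast at this
      exact_mod_cast this
    have h5 : (((p - q).toNat : ℕ) : ℝ) * α - ((m p - m q : ℤ) : ℝ) = v p - v q := by
      rw [h4]; push_cast; rw [hv]; ring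
    rw [h5] at h3
    linarith
  have hinj : Set.InjOn g F := by
    intro p hp q hq he
    rcases lt_trichotomy p q with h | h | h
    · exact absurd he.symm (hlt q hq p hp h)
    · exact h
    · exact absurd he (hlt p hp q hq h)
  have hcard : F.card ≤ (Finset.Icc (0 : ℤ) ⌊2 * r / δ⌋).card := card_le_card_of_injOn g hmem hinj
  rw [Int.card_Icc] at hcard
  have h0 : 0 ≤ 2 * r / δ := by positivity
  have h1 : 0 ≤ ⌊2 * r / δ⌋ := Int.floor_nonneg.2 h0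
  have h2 : ((F.card : ℤ)) ≤ ⌊2 * r / δ⌋ + 1 := by omega
  have h3 : ((F.card : ℤ) : ℝ) ≤ ((⌊2 * r / δ⌋ + 1 : ℤ) : ℝ) := by exact_mod_cast h2
  push_cast at h3
  have := Int.floor_le (2 * r / δ)
  linarith

/-- best approximations -/
lemma best (α : ℝ) (H : ℕ) (hH : 1 ≤ H) : ∃ (q : ℕ) (h : ℤ), 1 ≤ q ∧ q ≤ H ∧
    (∀ t : ℕ, 1 ≤ t → t ≤ H → ∀ m : ℤ, |(q : ℝ) * α - h| ≤ |(t : ℝ) * α - m|) ∧
    (∀ t : ℕ, 1 ≤ t → t < q → ∀ m : ℤ, 1 / (2 * (q : ℝ)) ≤ |(t : ℝ) * α - m|) := by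
  classical
  set D : ℕ → ℝ := fun t => |(t : ℝ) * α - round ((t : ℝ) * α)| with hD
  have hDle : ∀ (t : ℕ) (m : ℤ), D t ≤ |(t : ℝ) * α - m| := fun t m => round_le _ m
  have hex : ∃ q : ℕ, 1 ≤ q ∧ q ≤ H ∧ ∀ t : ℕ, 1 ≤ t → t ≤ H → D q ≤ D t := by
    obtain ⟨q, hq, hmin⟩ := Finset.exists_min_image (Finset.Icc 1 H) D ⟨1, by simp [hH]⟩
    rw [mem_Icc] at hq
    exact ⟨q, hq.1, hq.2, fun t h1 h2 => hmin t (mem_Icc.2 ⟨h1, h2⟩)⟩
  obtain ⟨q, ⟨hq1, hqH, hqmin⟩, hleast⟩ : ∃ q : ℕ, (1 ≤ q ∧ q ≤ H ∧ ∀ t : ℕ, 1 ≤ t → t ≤ H → D q ≤ D t) ∧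
      ∀ s < q, ¬ (1 ≤ s ∧ s ≤ H ∧ ∀ t : ℕ, 1 ≤ t → t ≤ H → D s ≤ D t) :=
    ⟨Nat.find hex, Nat.find_spec hex, fun s hs => Nat.find_min hex hs⟩
  refine ⟨q, round ((q : ℝ) * α), hq1, hqH, fun t h1 h2 m => (hqmin t h1 h2).trans (hDle t m), ?_⟩
  intro t ht1 htq m
  refine le_trans ?_ (hDle t m)
  -- the minimum below `q`
  obtain ⟨q', hq', hmin'⟩ := Finset.exists_min_image (Finset.Ico 1 q) D ⟨t, mem_Ico.2 ⟨ht1, htq⟩⟩
  rw [mem_Ico] at hq'
  have ht := hmin' t (mem_Ico.2 ⟨ht1, htq⟩)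
  refine le_trans ?_ ht
  have hlt : D q < D q' := by
    by_contra hcon
    push Not at hcon
    exact hleast q' hq'.2 ⟨hq'.1, by omega, fun s h1 h2 => hcon.trans (hqmin s h1 h2)⟩
  have hq0 : (0 : ℝ) < q := by exact_mod_cast hq1
  have hq'0 : (0 : ℝ) < q' := by exact_mod_cast hq'.1
  have hqq : (q' : ℝ) ≤ q := by exact_mod_cast hq'.2.le
  set h := round ((q : ℝ) * α) with hh
  set h' := round ((q' : ℝ) * α) with hh'
  have e1 : D q = |(q : ℝ) * α - h| := rfl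
  have e2 : D q' = |(q' : ℝ) * α - h'| := rfl
  have key : (((q' : ℤ) * h - (q : ℤ) * h' : ℤ) : ℝ) = q * ((q' : ℝ) * α - h') - q' * ((q : ℝ) * α - h) := by
    push_cast; ring
  have hne : (q' : ℤ) * h - (q : ℤ) * h' ≠ 0 := by
    intro h0
    rw [h0, Int.cast_zero] at key
    have h3 : (q : ℝ) * D q' = q' * D q := by
      rw [e1, e2, ← abs_of_pos hq0, ← abs_of_pos hq'0, ← abs_mul, ← abs_mul, abs_of_pos hq0, abs_of_pos hq'0]
      congr 1
      linarith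
    have h4 : 0 ≤ D q := abs_nonneg _
    nlinarith
  have h1 : (1 : ℝ) ≤ |(((q' : ℤ) * h - (q : ℤ) * h' : ℤ) : ℝ)| := by
    exact_mod_cast Int.one_le_abs hne
  rw [key] at h1
  have h2 : |(q : ℝ) * ((q' : ℝ) * α - h') - q' * ((q : ℝ) * α - h)| ≤ q * D q' + q' * D q := by
    refine (abs_sub _ _).trans ?_
    rw [abs_mul, abs_mul, abs_of_pos hq0, abs_of_pos hq'0, ← e1, ← e2]
  rw [div_le_iff₀ (by positivity)]
  have h4 : 0 ≤ D q := abs_nonneg _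
  nlinarith

/-- few elements of `S` have a multiple far from the integers -/
def Few (α K η : ℝ) (S : Set ℤ) : Prop := ∀ r : ℝ, 0 < r → ∀ F : Finset ℤ,
  (∀ s ∈ F, s ∈ S ∧ ∀ m : ℤ, r ≤ |(s : ℝ) * α - m|) → (F.card : ℝ) ≤ K * r ^ (-η)

/-- splitting -/
lemma split {α K η : ℝ} {S : Set ℤ} (hS : Few α K η S) {r B : ℝ} (hr : 0 < r) (F : Finset ℤ)
    (hF : ∀ s ∈ F, s ∈ S)
    (hB : ∀ G : Finset ℤ, G ⊆ F → (∀ s ∈ G, ∃ m : ℤ, |(s : ℝ) * α - m| ≤ r) → (G.card : ℝ) ≤ B) :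
    (F.card : ℝ) ≤ B + K * r ^ (-η) := by
  classical
  have h1 := hB (F.filter fun s : ℤ => ∃ m : ℤ, |(s : ℝ) * α - m| ≤ r) (filter_subset _ _)
    (fun s hs => (mem_filter.1 hs).2)
  have h2 := hS r hr (F.filter fun s : ℤ => ¬ ∃ m : ℤ, |(s : ℝ) * α - m| ≤ r) (fun s hs => by
    rw [mem_filter] at hs
    refine ⟨hF s hs.1, fun m => ?_⟩
    have := hs.2
    push Not at this
    exact (this m).le)
  have h3 : (F.filter fun s : ℤ => ∃ m : ℤ, |(s : ℝ) * α - m| ≤ r).card +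
      (F.filter fun s : ℤ => ¬ ∃ m : ℤ, |(s : ℝ) * α - m| ≤ r).card = F.card :=
    card_filter_add_card_filter_not (s := F) _
  have h4 : (F.card : ℝ) = ((F.filter fun s : ℤ => ∃ m : ℤ, |(s : ℝ) * α - m| ≤ r).card : ℝ) +
      ((F.filter fun s : ℤ => ¬ ∃ m : ℤ, |(s : ℝ) * α - m| ≤ r).card : ℝ) := by exact_mod_cast h3.symm
  rw [h4]
  linarith

/-- points in an interval, blocks -/
lemma blocks {α r : ℝ} (hr : 0 ≤ r) {q : ℕ} (hq : 1 ≤ q)
    (hsp : ∀ t : ℕ, 1 ≤ t → t < q → ∀ m : ℤ, 1 / (2 * (q : ℝ)) ≤ |(t : ℝ) * α - m|)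
    (a : ℤ) (H : ℕ) (F : Finset ℤ) (hI : ∀ s ∈ F, a ≤ s ∧ s < a + H)
    (hF : ∀ p ∈ F, ∃ m : ℤ, |(p : ℝ) * α - m| ≤ r) :
    (F.card : ℝ) ≤ ((H : ℝ) / q + 1) * (4 * r * q + 1) := by
  classical
  have hq0 : (0 : ℝ) < q := by exact_mod_cast hq
  have hblock : ∀ G : Finset ℤ, G ⊆ F → (∀ x ∈ G, ∀ y ∈ G, x - y ≤ (q - 1 : ℕ)) →
      (G.card : ℝ) ≤ 4 * r * q + 1 := by
    intro G hG hd
    have h := spacing (δ := 1 / (2 * (q : ℝ))) (by positivity) hr (L := q - 1)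
      (fun t h1 h2 m => hsp t h1 (by omega) m) G (fun p hp => hF p (hG hp)) hd
    refine h.trans (le_of_eq ?_)
    field_simp
    ring
  set n : ℕ := ⌊4 * r * q + 1⌋₊ with hn
  have hpos : (0 : ℝ) ≤ 4 * r * q + 1 := by positivity
  have h1 := Finset.card_le_mul_card_image (f := fun s : ℤ => (s - a) / q) F n (by
    intro b _
    rw [hn]
    apply Nat.le_floor
    apply hblock _ (filter_subset _ _)
    intro x hx y hy
    have hx' := (mem_filter.1 hx).2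
    have hy' := (mem_filter.1 hy).2
    have hq' : (0 : ℤ) < q := by exact_mod_cast hq
    have e1 := Int.emod_add_mul_ediv (x - a) q
    have e2 := Int.emod_add_mul_ediv (y - a) q
    have e3 := Int.emod_nonneg (y - a) hq'.ne'
    have e4 := Int.emod_lt_of_pos (x - a) hq'
    rw [hx'] at e1
    rw [hy'] at e2
    have : ((q - 1 : ℕ) : ℤ) = q - 1 := by omega
    rw [this]
    omega)
  have h2 : F.image (fun s : ℤ => (s - a) / q) ⊆ Finset.Icc (0 : ℤ) ((H : ℤ) / q) := by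
    intro b hb
    rw [mem_image] at hb
    obtain ⟨s, hs, rfl⟩ := hb
    obtain ⟨h3, h4⟩ := hI s hs
    rw [mem_Icc]
    have hq' : (0 : ℤ) < q := by exact_mod_cast hq
    refine ⟨Int.ediv_nonneg (by omega) hq'.le, Int.ediv_le_ediv hq' (by omega)⟩
  have h3 := card_le_card h2
  rw [Int.card_Icc] at h3
  have h4 : (((H : ℤ) / q + 1 - 0).toNat : ℕ) = H / q + 1 := by
    have h8 : ((H : ℤ) / q) = ((H / q : ℕ) : ℤ) := (Int.natCast_ediv H q).symm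
    rw [h8]
    generalize H / q = w
    omega
  rw [h4] at h3
  have h5 : (F.card : ℝ) ≤ (n : ℝ) * ((H / q + 1 : ℕ) : ℝ) := by
    have : F.card ≤ n * (H / q + 1) := h1.trans (Nat.mul_le_mul le_rfl h3)
    exact_mod_cast this
  have h6 : (n : ℝ) ≤ 4 * r * q + 1 := Nat.floor_le hpos
  have h7 : ((H / q + 1 : ℕ) : ℝ) ≤ (H : ℝ) / q + 1 := by
    push_cast
    have := Nat.cast_div_le (α := ℝ) (m := H) (n := q)
    linarith
  calc (F.card : ℝ) ≤ (n : ℝ) * ((H / q + 1 : ℕ) : ℝ) := h5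
    _ ≤ (4 * r * q + 1) * ((H : ℝ) / q + 1) := mul_le_mul h6 h7 (Nat.cast_nonneg _) hpos
    _ = _ := by ring

/-- **Intervals.** -/
theorem interval_count {α c τ η K : ℝ} (hc : 0 < c) (hτ : 2 ≤ τ) (hη0 : 0 < η) (hη1 : η ≤ 1) (hK : 0 ≤ K)
    (htype : ∀ t : ℕ, 1 ≤ t → ∀ m : ℤ, c * (t : ℝ) ^ (-τ) ≤ |(t : ℝ) * α - m|) :
    ∃ C : ℝ, ∀ S : Set ℤ, Few α K η S → ∀ (a : ℤ) (H : ℕ), 1 ≤ H → ∀ F : Finset ℤ,
      (∀ s ∈ F, s ∈ S ∧ a ≤ s ∧ s < a + H) → (F.card : ℝ) ≤ C * (H : ℝ) ^ (τ * η / (1 + η + τ * η)) := by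
  set e : ℝ := τ * η / (1 + η + τ * η) with he
  set θ : ℝ := (1 + η) / (1 + η + τ * η) with hθ
  set κ : ℝ := η / (1 + η) with hκ
  have hd : 0 < 1 + η + τ * η := by positivity
  have h1η : 0 < 1 + η := by linarith
  have heθ : 1 - θ = e := by rw [he, hθ]; field_simp; ring
  have hκ0 : 0 < κ := by positivity
  have hθτ : θ * τ * κ = e := by rw [he, hθ, hκ]; field_simp
  have hκe : κ ≤ e := by
    rw [he, hκ, div_le_div_iff₀ h1η hd]
    nlinarith [mul_pos hη0 hη0]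
  have he0 : 0 < e := by positivity
  refine ⟨(2 + K) * c ^ (-κ) + 11 + K, fun S hS a H hH F hF => ?_⟩
  have hHr : (1 : ℝ) ≤ H := by exact_mod_cast hH
  have hH0 : (0 : ℝ) < H := by linarith
  have hHe : (1 : ℝ) ≤ (H : ℝ) ^ e := Real.one_le_rpow hHr he0.le
  have hcκ : 0 < c ^ (-κ) := Real.rpow_pos_of_pos hc _
  obtain ⟨q, h, hq1, hqH, hbest, hblk⟩ := best α H hH
  have hq0 : (0 : ℝ) < q := by exact_mod_cast hq1
  have hqHr : (q : ℝ) ≤ H := by exact_mod_cast hqH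
  set δ : ℝ := |(q : ℝ) * α - h| with hδ
  have hδc : c * (q : ℝ) ^ (-τ) ≤ δ := htype q hq1 h
  have hδ0 : 0 < δ := lt_of_lt_of_le (by positivity) hδc
  rcases lt_or_ge (q : ℝ) ((H : ℝ) ^ θ) with hcase | hcase
  · -- small denominators
    set r : ℝ := δ ^ (1 / (1 + η)) with hr
    have hr0 : 0 < r := Real.rpow_pos_of_pos hδ0 _
    have e1 : r / δ = δ ^ (-κ) := by
      rw [hr]
      nth_rewrite 2 [← Real.rpow_one δ]
      rw [← Real.rpow_sub hδ0]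
      congr 1
      rw [hκ]; field_simp; ring
    have e2 : r ^ (-η) = δ ^ (-κ) := by
      rw [hr, ← Real.rpow_mul hδ0.le]
      congr 1
      rw [hκ]; field_simp
    have h1 := split hS hr0 F (fun s hs => (hF s hs).1) (B := 2 * r / δ + 1) (by
      intro G hG hGr
      refine spacing hδ0 hr0.le (L := H) (fun t h1 h2 m => hbest t h1 h2 m) G hGr ?_
      intro p hp q' hq'
      have a1 := (hF p (hG hp)).2
      have a2 := (hF q' (hG hq')).2
      omega)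
    rw [e2, mul_div_assoc, e1] at h1
    have h2 : δ ^ (-κ) ≤ c ^ (-κ) * (H : ℝ) ^ e := by
      have h4 : (H : ℝ) ^ (-(θ * τ)) ≤ (q : ℝ) ^ (-τ) := by
        rw [show -(θ * τ) = θ * (-τ) by ring, Real.rpow_mul hH0.le]
        exact Real.rpow_le_rpow_of_nonpos hq0 hcase.le (by linarith)
      have h3 : c * (H : ℝ) ^ (-(θ * τ)) ≤ δ :=
        (mul_le_mul_of_nonneg_left h4 hc.le).trans hδc
      have h5 := Real.rpow_le_rpow_of_nonpos (z := -κ) (by positivity) h3 (by linarith)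
      refine h5.trans (le_of_eq ?_)
      rw [Real.mul_rpow hc.le (by positivity), ← Real.rpow_mul hH0.le]
      congr 2
      rw [← hθτ]; ring
    have h6 : (2 + K) * δ ^ (-κ) ≤ (2 + K) * (c ^ (-κ) * (H : ℝ) ^ e) :=
      mul_le_mul_of_nonneg_left h2 (by linarith)
    nlinarith
  · -- large denominators
    set r : ℝ := (H : ℝ) ^ (-(1 / (1 + η))) with hr
    have hr0 : 0 < r := Real.rpow_pos_of_pos hH0 _
    have e1 : r * H = (H : ℝ) ^ κ := by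
      rw [hr]
      nth_rewrite 2 [← Real.rpow_one (H : ℝ)]
      rw [← Real.rpow_add hH0]
      congr 1
      rw [hκ]; field_simp; ring
    have e2 : r ^ (-η) = (H : ℝ) ^ κ := by
      rw [hr, ← Real.rpow_mul hH0.le]
      congr 1
      rw [hκ]; field_simp
    have h1 := split hS hr0 F (fun s hs => (hF s hs).1) (B := ((H : ℝ) / q + 1) * (4 * r * q + 1))
      (fun G hG hGr => blocks hr0.le hq1 hblk a H G (fun s hs => (hF s (hG hs)).2) hGr)
    rw [e2] at h1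
    have h2 : ((H : ℝ) / q + 1) * (4 * r * q + 1) = 4 * (r * H) + 4 * (r * q) + H / q + 1 := by
      field_simp; ring
    have h3 : r * q ≤ r * H := mul_le_mul_of_nonneg_left hqHr hr0.le
    have h4 : (H : ℝ) / q ≤ (H : ℝ) ^ e := by
      rw [← heθ, Real.rpow_sub hH0, Real.rpow_one]
      exact div_le_div_of_nonneg_left hH0.le (by positivity) hcase
    have h5 : (H : ℝ) ^ κ ≤ (H : ℝ) ^ e := Real.rpow_le_rpow_of_exponent_le hHr hκe
    rw [h2] at h1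
    rw [e1] at h1 h3
    have h6 : K * (H : ℝ) ^ κ ≤ K * (H : ℝ) ^ e := mul_le_mul_of_nonneg_left h5 hK
    have h7 : 0 ≤ (2 + K) * c ^ (-κ) * (H : ℝ) ^ e := by positivity
    nlinarith

/-- **Infinitely many scales.** -/
theorem scales {α c τ : ℝ} (hc : 0 < c) (hτ : 0 < τ)
    (htype : ∀ t : ℕ, 1 ≤ t → ∀ m : ℤ, c * (t : ℝ) ^ (-τ) ≤ |(t : ℝ) * α - m|) (n : ℕ) :
    ∃ H : ℕ, n < H ∧ ∀ t : ℕ, 1 ≤ t → t < H → ∀ m : ℤ, 1 / (2 * (H : ℝ)) ≤ |(t : ℝ) * α - m| := by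
  -- choose `N` with `c n^(-τ) > 1/(N+1)`
  obtain ⟨N, hN⟩ := exists_nat_gt (1 / (c * ((n : ℝ) + 1) ^ (-τ)))
  have hn0 : (0 : ℝ) < (n : ℝ) + 1 := by positivity
  have hpos : 0 < c * ((n : ℝ) + 1) ^ (-τ) := by positivity
  have hN0 : 0 < N := by
    have : (0 : ℝ) < N := lt_trans (by positivity) hN
    exact_mod_cast this
  obtain ⟨q, h, hq1, hqN, hbest, hblk⟩ := best α N hN0
  refine ⟨q, ?_, hblk⟩
  by_contra hcon
  push Not at hcon
  obtain ⟨k, hk0, hkN, hk⟩ := Real.exists_nat_abs_mul_sub_round_le α hN0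
  have h1 := hbest k hk0 hkN (round ((k : ℝ) * α))
  have h2 := htype q hq1 h
  have hq0 : (0 : ℝ) < q := by exact_mod_cast hq1
  have h3 : c * ((n : ℝ) + 1) ^ (-τ) ≤ c * (q : ℝ) ^ (-τ) := by
    apply mul_le_mul_of_nonneg_left _ hc.le
    apply Real.rpow_le_rpow_of_nonpos hq0 _ (by linarith)
    have : (q : ℝ) ≤ n := by exact_mod_cast hcon
    linarith
  have h4 : c * ((n : ℝ) + 1) ^ (-τ) ≤ 1 / ((N : ℝ) + 1) := by linarith
  rw [div_lt_iff₀ hpos] at hN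
  rw [le_div_iff₀ (by positivity)] at h4
  nlinarith

/-- intervals at the scales -/
theorem scale_count {α η K : ℝ} (hη0 : 0 < η) {S : Set ℤ} (hS : Few α K η S) {Q : ℕ} (hQ : 1 ≤ Q)
    (hsp : ∀ t : ℕ, 1 ≤ t → t < Q → ∀ m : ℤ, 1 / (2 * (Q : ℝ)) ≤ |(t : ℝ) * α - m|) {H : ℕ}
    (hQH : Q ≤ H) (hHQ : (H : ℝ) ≤ (Q : ℝ) ^ (1 + η))
    (a : ℤ) (F : Finset ℤ) (hF : ∀ s ∈ F, s ∈ S ∧ a ≤ s ∧ s < a + H) :
    (F.card : ℝ) ≤ (10 + K) * (H : ℝ) ^ (η / (1 + η)) := by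
  have hHr : (1 : ℝ) ≤ H := by exact_mod_cast hQ.trans hQH
  have hH0 : (0 : ℝ) < H := by linarith
  have hQ0 : (0 : ℝ) < Q := by exact_mod_cast hQ
  have hQHr : (Q : ℝ) ≤ H := by exact_mod_cast hQH
  have h1η : 0 < 1 + η := by linarith
  set κ : ℝ := η / (1 + η) with hκ
  have hκ0 : 0 < κ := by positivity
  have hHκ : (1 : ℝ) ≤ (H : ℝ) ^ κ := Real.one_le_rpow hHr hκ0.le
  set r : ℝ := (H : ℝ) ^ (-(1 / (1 + η))) with hr
  have hr0 : 0 < r := Real.rpow_pos_of_pos hH0 _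
  have e1 : r * H = (H : ℝ) ^ κ := by
    rw [hr]
    nth_rewrite 2 [← Real.rpow_one (H : ℝ)]
    rw [← Real.rpow_add hH0]
    congr 1
    rw [hκ]; field_simp; ring
  have e2 : r ^ (-η) = (H : ℝ) ^ κ := by
    rw [hr, ← Real.rpow_mul hH0.le]
    congr 1
    rw [hκ]; field_simp
  have h1 := split hS hr0 F (fun s hs => (hF s hs).1) (B := ((H : ℝ) / Q + 1) * (4 * r * Q + 1))
    (fun G hG hGr => blocks hr0.le hQ hsp a H G (fun s hs => (hF s (hG hs)).2) hGr)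
  have h2 : ((H : ℝ) / Q + 1) * (4 * r * Q + 1) = 4 * (r * H) + 4 * (r * Q) + H / Q + 1 := by
    field_simp; ring
  have h3 : r * Q ≤ r * H := mul_le_mul_of_nonneg_left hQHr hr0.le
  have h4 : (H : ℝ) / Q ≤ (H : ℝ) ^ κ := by
    have h5 : (H : ℝ) ^ (1 / (1 + η)) ≤ Q := by
      have h6 := Real.rpow_le_rpow hH0.le hHQ (show 0 ≤ 1 / (1 + η) by positivity)
      rw [← Real.rpow_mul hQ0.le] at h6
      have h7 : (1 + η) * (1 / (1 + η)) = 1 := by field_simp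
      rw [h7, Real.rpow_one] at h6
      exact h6
    have h8 : κ = 1 - 1 / (1 + η) := by rw [hκ]; field_simp; ring
    rw [h8, Real.rpow_sub hH0, Real.rpow_one]
    exact div_le_div_of_nonneg_left hH0.le (by positivity) h5
  rw [h2, e2] at h1
  rw [e1] at h1 h3
  nlinarith

end Pool.Agent.V8H18.CL
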