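import Pool.Agent.V8H18.CL.Core
import Pool.Agent.TH933.CycCount2

set_option autoImplicit false

/-!
Integral linear combinations of the number of elements and of the number of odd elements of the
cycles of the 3x+1 map.
-/

namespace Pool.Agent.V8H18.CL

open Finset Pool.Agent.H319R2 Pool.Agent.H547R3 Pool.Agent.TH933.Cyc

/-- measure of `log 2 / log 3` with exponent `τ` -/
def LType (τ : ℝ) : Prop := ∃ c : ℝ, 0 < c ∧ ∀ p o : ℤ, p ≠ 0 →
  c * |(p : ℝ)| ^ (-τ) ≤ |(p : ℝ) * Real.log 2 - o * Real.log 3|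

lemma log2_pos : 0 < Real.log 2 := Real.log_pos (by norm_num)

theorem ltype13 : LType 13 := by
  obtain ⟨c, hc, hm⟩ := Pool.Agent.H319R2.measure
  have h3 := log3_gt
  have h2 := log2_pos
  refine ⟨min 1 (c / 4 ^ 13), by positivity, ?_⟩
  intro p o hp
  have hp1 : (1 : ℝ) ≤ |(p : ℝ)| := by exact_mod_cast Int.one_le_abs hp
  have hp0 : (0 : ℝ) < |(p : ℝ)| := by linarith
  have hpow : |(p : ℝ)| ^ (-(13 : ℝ)) = 1 / |(p : ℝ)| ^ 13 := by
    rw [Real.rpow_neg hp0.le, one_div]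
    congr 1
    exact_mod_cast Real.rpow_natCast |(p : ℝ)| 13
  rw [hpow]
  have hp13 : (1 : ℝ) ≤ |(p : ℝ)| ^ 13 := one_le_pow₀ hp1
  rcases lt_or_ge 1 |(p : ℝ) * Real.log 2 - o * Real.log 3| with h | h
  · have : min 1 (c / 4 ^ 13) * (1 / |(p : ℝ)| ^ 13) ≤ 1 * 1 := by
      apply mul_le_mul (min_le_left _ _) _ (by positivity) (by norm_num)
      rw [div_le_one (by positivity)]; exact hp13
    linarith
  · have h4 := hm p (-o) (Or.inl hp)
    have e : (p : ℝ) * Real.log 2 + ((-o : ℤ) : ℝ) * Real.log 3 = p * Real.log 2 - o * Real.log 3 := by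
      push_cast; ring
    rw [e] at h4
    have ho : |(o : ℝ)| ≤ 3 * |(p : ℝ)| := by
      have h5 : |(o : ℝ)| * Real.log 3 ≤ |(p : ℝ)| * Real.log 2 + 1 := by
        have e2 : (o : ℝ) * Real.log 3 = p * Real.log 2 - (p * Real.log 2 - o * Real.log 3) := by ring
        have h6 := abs_sub ((p : ℝ) * Real.log 2) (p * Real.log 2 - o * Real.log 3)
        rw [← e2, abs_mul, abs_mul, abs_of_pos h2, abs_of_pos (show (0 : ℝ) < Real.log 3 by linarith)] at h6
        linarith
      have h7 : Real.log 2 < 1 := by have := Real.log_two_lt_d9; linarith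
      nlinarith [abs_nonneg (o : ℝ)]
    have h5 : ((|p| + |-o| : ℤ) : ℝ) ≤ 4 * |(p : ℝ)| := by
      push_cast
      rw [abs_neg]
      linarith
    have h6 : ((|p| + |-o| : ℤ) : ℝ) ^ 13 ≤ (4 * |(p : ℝ)|) ^ 13 :=
      pow_le_pow_left₀ (by have : (0 : ℤ) ≤ |p| + |-o| := by positivity
                           exact_mod_cast this) h5 13
    have h7 : c ≤ (4 * |(p : ℝ)|) ^ 13 * |(p : ℝ) * Real.log 2 - o * Real.log 3| :=
      h4.trans (mul_le_mul_of_nonneg_right h6 (abs_nonneg _))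
    rw [mul_one_div, div_le_iff₀ (by positivity)]
    refine (min_le_right _ _).trans ?_
    rw [div_le_iff₀ (by positivity)]
    calc c ≤ _ := h7
      _ = _ := by rw [mul_pow]; ring

lemma type_aux {τ : ℝ} (hτ : 0 < τ) (hL : LType τ) {α lam : ℝ} (hlam : lam ≠ 0) (P O : ℤ → ℤ → ℤ)
    (A : ℝ) (hA : 1 ≤ A) (hP : ∀ t m : ℤ, |(P t m : ℝ)| ≤ A * (|(t : ℝ)| + |(m : ℝ)|))
    (he : ∀ t m : ℤ, ((t : ℝ) * α - m) * lam = P t m * Real.log 2 - O t m * Real.log 3)
    (h0 : ∀ t m : ℤ, 1 ≤ t → P t m = 0 → 1 ≤ |O t m|) :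
    ∃ c : ℝ, 0 < c ∧ ∀ t : ℕ, 1 ≤ t → ∀ m : ℤ, c * (t : ℝ) ^ (-τ) ≤ |(t : ℝ) * α - m| := by
  obtain ⟨c, hc, hL⟩ := hL
  have h3 := log3_gt
  set D : ℝ := A * (2 + |α|) with hD
  have hD0 : 0 < D := by positivity
  have hl0 : 0 < |lam| := abs_pos.2 hlam
  refine ⟨min 1 (min (1 / |lam|) (c * D ^ (-τ) / |lam|)), by positivity, ?_⟩
  intro t ht m
  have ht1 : (1 : ℝ) ≤ t := by exact_mod_cast ht
  have ht0 : (0 : ℝ) < t := by linarith
  have htτ : (t : ℝ) ^ (-τ) ≤ 1 := Real.rpow_le_one_of_one_le_of_nonpos ht1 (by linarith)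
  have htτ0 : 0 < (t : ℝ) ^ (-τ) := Real.rpow_pos_of_pos ht0 _
  have hmin1 : min 1 (min (1 / |lam|) (c * D ^ (-τ) / |lam|)) ≤ 1 := min_le_left _ _
  have hmin2 : min 1 (min (1 / |lam|) (c * D ^ (-τ) / |lam|)) ≤ 1 / |lam| :=
    (min_le_right _ _).trans (min_le_left _ _)
  have hmin3 : min 1 (min (1 / |lam|) (c * D ^ (-τ) / |lam|)) ≤ c * D ^ (-τ) / |lam| :=
    (min_le_right _ _).trans (min_le_right _ _)
  have hmin0 : 0 < min 1 (min (1 / |lam|) (c * D ^ (-τ) / |lam|)) := by positivity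
  set κ := min 1 (min (1 / |lam|) (c * D ^ (-τ) / |lam|)) with hκ
  rcases lt_or_ge 1 |(t : ℝ) * α - m| with h | h
  · nlinarith
  · have e1 := he t m
    rw [Int.cast_natCast] at e1
    have e2 : |(t : ℝ) * α - m| * |lam| = |(P t m : ℝ) * Real.log 2 - O t m * Real.log 3| := by
      rw [← abs_mul, e1]
    by_cases hP0 : P t m = 0
    · have h4 := h0 t m (by exact_mod_cast ht) hP0
      rw [hP0, Int.cast_zero, zero_mul, zero_sub, abs_neg, abs_mul,
        abs_of_pos (show (0 : ℝ) < Real.log 3 by linarith)] at e2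
      have h5 : (1 : ℝ) ≤ |(O t m : ℝ)| := by exact_mod_cast h4
      have h6 : 1 ≤ |(t : ℝ) * α - m| * |lam| := by rw [e2]; nlinarith
      have h7 : 1 / |lam| ≤ |(t : ℝ) * α - m| := by rw [div_le_iff₀ hl0]; exact h6
      nlinarith
    · have h4 := hL (P t m) (O t m) hP0
      have hm : |(m : ℝ)| ≤ (1 + |α|) * t := by
        have e3 : (m : ℝ) = t * α - (t * α - m) := by ring
        have h5 := abs_sub ((t : ℝ) * α) (t * α - m)
        rw [← e3, abs_mul, abs_of_pos ht0] at h5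
        nlinarith
      have h5 : |(P t m : ℝ)| ≤ D * t := by
        have h6 := hP t m
        rw [Int.cast_natCast, abs_of_pos ht0] at h6
        refine h6.trans ?_
        rw [hD]
        nlinarith
      have hP1 : (0 : ℝ) < |(P t m : ℝ)| := abs_pos.2 (by exact_mod_cast hP0)
      have h6 : (D * t) ^ (-τ) ≤ |(P t m : ℝ)| ^ (-τ) :=
        Real.rpow_le_rpow_of_nonpos hP1 h5 (by linarith)
      rw [Real.mul_rpow hD0.le ht0.le] at h6
      have h7 : c * (D ^ (-τ) * (t : ℝ) ^ (-τ)) ≤ |(t : ℝ) * α - m| * |lam| := by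
        rw [e2]
        exact (mul_le_mul_of_nonneg_left h6 hc.le).trans h4
      calc κ * (t : ℝ) ^ (-τ) ≤ c * D ^ (-τ) / |lam| * (t : ℝ) ^ (-τ) :=
            mul_le_mul_of_nonneg_right hmin3 htτ0.le
        _ = c * (D ^ (-τ) * (t : ℝ) ^ (-τ)) / |lam| := by ring
        _ ≤ _ := by rw [div_le_iff₀ hl0]; exact h7

/-- the frequency of the statistic `u p + v o` -/
theorem stat_type (u v : ℤ) (huv : u ≠ 0 ∨ v ≠ 0) : ∃ α : ℝ,
    (∀ τ : ℝ, 0 < τ → LType τ →
      ∃ c : ℝ, 0 < c ∧ ∀ t : ℕ, 1 ≤ t → ∀ m : ℤ, c * (t : ℝ) ^ (-τ) ≤ |(t : ℝ) * α - m|) ∧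
    ∃ B : ℝ, 0 < B ∧ ∀ p o : ℤ, ∃ m : ℤ,
      |((u * p + v * o : ℤ) : ℝ) * α - m| ≤ B * |(p : ℝ) * Real.log 2 - o * Real.log 3| := by
  have h3 := log3_gt
  have h2 := log2_pos
  set lam : ℝ := u * Real.log 3 + v * Real.log 2 with hlam
  have hlam0 : lam ≠ 0 := by
    obtain ⟨c, hc, hm⟩ := Pool.Agent.H319R2.measure
    have := hm v u huv.symm
    intro h0
    have e : (v : ℝ) * Real.log 2 + u * Real.log 3 = 0 := by rw [← h0, hlam]; ring
    rw [e, abs_zero, mul_zero] at this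
    linarith
  have hl0 : 0 < |lam| := abs_pos.2 hlam0
  by_cases hu : u = 0
  · have hv : v ≠ 0 := by rcases huv with h | h; exact absurd hu h; exact h
    refine ⟨Real.log 3 / lam, ?_, (|(v : ℝ)| + 1) / |lam|, by positivity, ?_⟩
    · intro τ hτ hL
      refine type_aux hτ hL hlam0 (fun _ m => -(v * m)) (fun t m => u * m - t) (1 + |(v : ℝ)|)
        (by have := abs_nonneg (v : ℝ); linarith) ?_ ?_ ?_
      · intro t m
        push_cast
        rw [abs_neg, abs_mul]
        nlinarith [abs_nonneg (v : ℝ), abs_nonneg (m : ℝ), abs_nonneg (t : ℝ),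
          mul_nonneg (abs_nonneg (v : ℝ)) (abs_nonneg (t : ℝ))]
      · intro t m
        rw [sub_mul, mul_div_assoc', div_mul_cancel₀ _ hlam0, hlam]
        push_cast
        ring
      · intro t m ht hP
        have hm : m = 0 := by
          rcases mul_eq_zero.1 (neg_eq_zero.1 hP) with h | h
          · exact absurd h hv
          · exact h
        rw [hm, mul_zero, zero_sub, abs_neg, abs_of_pos (by omega)]
        exact ht
    · intro p o
      refine ⟨p, ?_⟩
      have e : ((u * p + v * o : ℤ) : ℝ) * (Real.log 3 / lam) - p =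
          -(v * (p * Real.log 2 - o * Real.log 3)) / lam := by
        field_simp
        rw [hlam]; push_cast; ring
      rw [e, abs_div, abs_neg, abs_mul, div_mul_eq_mul_div]
      apply div_le_div_of_nonneg_right _ hl0.le
      nlinarith [abs_nonneg ((p : ℝ) * Real.log 2 - o * Real.log 3)]
  · refine ⟨Real.log 2 / lam, ?_, (|(u : ℝ)| + 1) / |lam|, by positivity, ?_⟩
    · intro τ hτ hL
      refine type_aux hτ hL hlam0 (fun t m => t - v * m) (fun _ m => u * m) (1 + |(v : ℝ)|)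
        (by have := abs_nonneg (v : ℝ); linarith) ?_ ?_ ?_
      · intro t m
        push_cast
        refine (abs_sub _ _).trans ?_
        rw [abs_mul]
        nlinarith [abs_nonneg (v : ℝ), abs_nonneg (m : ℝ), abs_nonneg (t : ℝ),
          mul_nonneg (abs_nonneg (v : ℝ)) (abs_nonneg (t : ℝ))]
      · intro t m
        rw [sub_mul, mul_div_assoc', div_mul_cancel₀ _ hlam0, hlam]
        push_cast
        ring
      · intro t m ht hP
        have hm : m ≠ 0 := by
          rintro rfl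
          simp only [mul_zero, sub_zero] at hP
          omega
        exact Int.one_le_abs (mul_ne_zero hu hm)
    · intro p o
      refine ⟨o, ?_⟩
      have e : ((u * p + v * o : ℤ) : ℝ) * (Real.log 2 / lam) - o =
          (u * (p * Real.log 2 - o * Real.log 3)) / lam := by
        field_simp
        rw [hlam]; push_cast; ring
      rw [e, abs_div, abs_mul, div_mul_eq_mul_div]
      apply div_le_div_of_nonneg_right _ hl0.le
      nlinarith [abs_nonneg ((p : ℝ) * Real.log 2 - o * Real.log 3)]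

/-- the values of the statistic -/
def Values (u v : ℤ) : Set ℤ := {s | ∃ Z : Finset ℤ, IsCycle Z ∧ u * Z.card + v * odds Z = s}

theorem values_few {η : ℝ} (hη : beta < η) (hη0 : 0 < η) (hη1 : η < 1) (u v : ℤ) {α B : ℝ} (hB : 0 < B)
    (hα : ∀ p o : ℤ, ∃ m : ℤ,
      |((u * p + v * o : ℤ) : ℝ) * α - m| ≤ B * |(p : ℝ) * Real.log 2 - o * Real.log 3|) :
    ∃ K : ℝ, 0 ≤ K ∧ Few α K η (Values u v) := by
  classical
  obtain ⟨K, hK0, hK⟩ := count_form η hη hη0 hη1
  refine ⟨K * B ^ η, by positivity, ?_⟩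
  intro r hr F hF
  have hch : ∀ s : ℤ, ∃ Z : Finset ℤ, s ∈ F → IsCycle Z ∧ u * Z.card + v * odds Z = s := by
    intro s
    by_cases hs : s ∈ F
    · obtain ⟨Z, h⟩ := (hF s hs).1
      exact ⟨Z, fun _ => h⟩
    · exact ⟨∅, fun h => absurd h hs⟩
  choose f hf using hch
  have hinj : Set.InjOn f F := by
    intro s hs s' hs' h
    rw [← (hf s hs).2, ← (hf s' hs').2, h]
  have h1 := hK (r / B) (by positivity) (F.image f) (by
    intro Z hZ
    rw [mem_image] at hZ
    obtain ⟨s, hs, rfl⟩ := hZ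
    refine ⟨(hf s hs).1, ?_⟩
    obtain ⟨m, hm⟩ := hα (f s).card (odds (f s))
    have h2 := (hF s hs).2 m
    rw [(hf s hs).2] at hm
    rw [div_le_iff₀ hB]
    refine h2.trans (hm.trans (le_of_eq ?_))
    unfold form
    push_cast
    ring)
  rw [card_image_of_injOn hinj] at h1
  refine h1.trans (le_of_eq ?_)
  rw [Real.div_rpow hr.le hB.le, Real.rpow_neg hB.le]
  field_simp

end Pool.Agent.V8H18.CL
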