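import Pool.Agent.V8H18.CL.Core
import Pool.Agent.H373R2.NB.Weyl

set_option autoImplicit false

/-!
The values of integral polynomials in Bohr sets.
-/

namespace Pool.Agent.V8H18.CL

open Finset Polynomial
open Pool.Agent.Helper602.MK (ee)
open Pool.Agent.Helper602.MK.N_J5b (ee_eq ee_add ee_zero ee_conj norm_ee ee_int ee_nat_mul ee_add_int)
open Pool.Agent.H373R2.NB (Ph IW IW_all Ph_poly)

lemma sq_expand (x : ℕ → ℝ) (N J : ℕ) (M : ℝ) (hM0 : 0 ≤ M)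
    (hM : ∀ h : ℕ, 1 ≤ h → h < J → ‖∑ n ∈ range N, ee (h * x n)‖ ≤ M) :
    ∑ n ∈ range N, ‖∑ j ∈ range J, ee (j * x n)‖ ^ 2 ≤ J * N + (J : ℝ) ^ 2 * M := by
  have hneg : ∀ h : ℕ, ‖∑ n ∈ range N, ee (-(h * x n))‖ = ‖∑ n ∈ range N, ee (h * x n)‖ := by
    intro h
    have : ∑ n ∈ range N, ee (-(h * x n)) = (starRingEnd ℂ) (∑ n ∈ range N, ee (h * x n)) := by
      rw [map_sum]
      exact sum_congr rfl (fun n _ => (ee_conj _).symm)
    rw [this, RCLike.norm_conj]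
  have hpair : ∀ j ∈ range J, ∀ k ∈ range J,
      ‖∑ n ∈ range N, ee (((j : ℝ) - k) * x n)‖ ≤ (if j = k then (N : ℝ) else 0) + M := by
    intro j hj k hk
    rw [mem_range] at hj hk
    rcases lt_trichotomy j k with h | h | h
    · rw [if_neg h.ne, zero_add]
      have e : ∀ n, ((j : ℝ) - k) * x n = -(((k - j : ℕ) : ℝ) * x n) := by
        intro n; rw [Nat.cast_sub h.le]; ring
      simp only [e]
      rw [hneg]
      exact hM _ (by omega) (by omega)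
    · rw [if_pos h, h]
      simp only [sub_self, zero_mul, ee_zero, sum_const, card_range, nsmul_eq_mul, mul_one]
      rw [Complex.norm_natCast]
      linarith
    · rw [if_neg h.ne', zero_add]
      have e : ∀ n, ((j : ℝ) - k) * x n = ((j - k : ℕ) : ℝ) * x n := by
        intro n; rw [Nat.cast_sub h.le]
      simp only [e]
      exact hM _ (by omega) (by omega)
  have key : ((∑ n ∈ range N, ‖∑ j ∈ range J, ee (j * x n)‖ ^ 2 : ℝ) : ℂ) =
      ∑ j ∈ range J, ∑ k ∈ range J, ∑ n ∈ range N, ee (((j : ℝ) - k) * x n) := by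
    push_cast
    have h1 : ∀ n, ((‖∑ j ∈ range J, ee (j * x n)‖ : ℂ)) ^ 2 =
        ∑ j ∈ range J, ∑ k ∈ range J, ee (((j : ℝ) - k) * x n) := by
      intro n
      have h2 := Complex.mul_conj' (∑ j ∈ range J, ee (j * x n))
      rw [← h2, map_sum, sum_mul_sum]
      refine sum_congr rfl (fun j _ => sum_congr rfl (fun k _ => ?_))
      rw [ee_conj, ← ee_add]
      congr 1; ring
    rw [sum_congr rfl (fun n _ => h1 n), sum_comm]
    refine sum_congr rfl (fun j _ => ?_)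
    rw [sum_comm]
  have h0 : 0 ≤ ∑ n ∈ range N, ‖∑ j ∈ range J, ee (j * x n)‖ ^ 2 := sum_nonneg (fun _ _ => by positivity)
  calc ∑ n ∈ range N, ‖∑ j ∈ range J, ee (j * x n)‖ ^ 2
      = ‖((∑ n ∈ range N, ‖∑ j ∈ range J, ee (j * x n)‖ ^ 2 : ℝ) : ℂ)‖ := by
        rw [Complex.norm_real, Real.norm_of_nonneg h0]
    _ ≤ ∑ j ∈ range J, ∑ k ∈ range J, ((if j = k then (N : ℝ) else 0) + M) := by
        rw [key]
        refine (norm_sum_le _ _).trans (sum_le_sum fun j hj => ?_)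
        exact (norm_sum_le _ _).trans (sum_le_sum fun k hk => hpair j hj k hk)
    _ = J * N + (J : ℝ) ^ 2 * M := by
        simp only [sum_add_distrib, sum_ite_eq, mem_range, sum_const, card_range, nsmul_eq_mul]
        rw [sum_congr rfl (fun j hj => if_pos (mem_range.1 hj))]
        simp only [sum_const, card_range, nsmul_eq_mul]
        ring

lemma large_near {J : ℕ} {x ρ : ℝ} (hJ : J * ρ ≤ 1 / 8) (hx : ∃ m : ℤ, |x - m| ≤ ρ) :
    (J : ℝ) / 2 ≤ ‖∑ j ∈ range J, ee (j * x)‖ := by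
  obtain ⟨m, hm⟩ := hx
  have hterm : ∀ j ∈ range J, (1 : ℝ) / 2 ≤ (ee (j * x)).re := by
    intro j hj
    rw [mem_range] at hj
    have hjJ : (j : ℝ) ≤ J := by exact_mod_cast hj.le
    set y : ℝ := j * (x - m) with hy
    have e1 : (j : ℝ) * x = y + ((j * m : ℤ) : ℝ) := by rw [hy]; push_cast; ring
    rw [e1, ee_add_int, ee_eq, Complex.exp_ofReal_mul_I_re]
    have hρ : 0 ≤ ρ := (abs_nonneg _).trans hm
    have hy8 : |y| ≤ 1 / 8 := by
      rw [hy, abs_mul, abs_of_nonneg (Nat.cast_nonneg j)]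
      calc (j : ℝ) * |x - m| ≤ J * ρ := mul_le_mul hjJ hm (abs_nonneg _) (Nat.cast_nonneg _)
        _ ≤ _ := hJ
    have h1 := Real.one_sub_sq_div_two_le_cos (x := 2 * Real.pi * y)
    have h2 : (2 * Real.pi * y) ^ 2 ≤ 1 := by
      rw [← sq_abs, abs_mul, abs_of_pos (by positivity : (0 : ℝ) < 2 * Real.pi)]
      have h3 : 2 * Real.pi * |y| ≤ 1 := by
        have := Real.pi_lt_d2
        nlinarith [abs_nonneg y]
      have h4 : 0 ≤ 2 * Real.pi * |y| := by positivity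
      nlinarith
    linarith
  calc (J : ℝ) / 2 = ∑ j ∈ range J, (1 : ℝ) / 2 := by
        rw [sum_const, card_range, nsmul_eq_mul]; ring
    _ ≤ ∑ j ∈ range J, (ee (j * x)).re := sum_le_sum hterm
    _ = (∑ j ∈ range J, ee (j * x)).re := by rw [Complex.re_sum]
    _ ≤ _ := Complex.re_le_norm _

/-- the number of points close to the integers -/
lemma near_count (x : ℕ → ℝ) (N J : ℕ) (hJ1 : 1 ≤ J) {M ρ : ℝ} (hM0 : 0 ≤ M) (hJ : J * ρ ≤ 1 / 8)
    (hM : ∀ h : ℕ, 1 ≤ h → h < J → ‖∑ n ∈ range N, ee (h * x n)‖ ≤ M) (G : Finset ℕ)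
    (hG : ∀ n ∈ G, n < N ∧ ∃ m : ℤ, |x n - m| ≤ ρ) : (G.card : ℝ) ≤ 4 * (N : ℝ) / J + 4 * M := by
  have hJ0 : (0 : ℝ) < J := by exact_mod_cast hJ1
  have h1 := sq_expand x N J M hM0 hM
  have h2 : (G.card : ℝ) * ((J : ℝ) ^ 2 / 4) ≤ ∑ n ∈ range N, ‖∑ j ∈ range J, ee (j * x n)‖ ^ 2 := by
    calc (G.card : ℝ) * ((J : ℝ) ^ 2 / 4) = ∑ n ∈ G, (J : ℝ) ^ 2 / 4 := by rw [sum_const, nsmul_eq_mul]
      _ ≤ ∑ n ∈ G, ‖∑ j ∈ range J, ee (j * x n)‖ ^ 2 := by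
          apply sum_le_sum
          intro n hn
          have := large_near (x := x n) hJ (hG n hn).2
          calc (J : ℝ) ^ 2 / 4 = ((J : ℝ) / 2) ^ 2 := by ring
            _ ≤ _ := pow_le_pow_left₀ (by positivity) this 2
      _ ≤ _ := by
          apply sum_le_sum_of_subset_of_nonneg
          · intro n hn
            exact mem_range.2 (hG n hn).1
          · intro n _ _
            positivity
  have h3 := h2.trans h1
  have h4 : (G.card : ℝ) ≤ (J * N + (J : ℝ) ^ 2 * M) / ((J : ℝ) ^ 2 / 4) := by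
    rw [le_div_iff₀ (by positivity)]; exact h3
  refine h4.trans (le_of_eq ?_)
  field_simp

/-- Weyl sums for frequencies of finite type -/
lemma weyl_type (d : ℕ) (hd : 1 ≤ d) (τ : ℝ) (hτ : 0 < τ) : ∃ δ : ℝ, 0 < δ ∧ δ ≤ 1 / 2 ∧
    ∀ α c : ℝ, 0 < c → (∀ t : ℕ, 1 ≤ t → ∀ m : ℤ, c * (t : ℝ) ^ (-τ) ≤ |(t : ℝ) * α - m|) →
    ∀ L : ℝ, 1 ≤ L → ∃ N₀ : ℝ, ∀ f : ℤ[X], f.natDegree = d → |((f.coeff d : ℤ) : ℝ)| ≤ L →
    ∀ N : ℕ, 1 ≤ N → N₀ < N → ∀ h : ℕ, 1 ≤ h → (h : ℝ) ≤ (N : ℝ) ^ δ →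
      ‖∑ n ∈ range N, ee (h * (((f.eval (n : ℤ) : ℤ) : ℝ) * α))‖ ≤ (N : ℝ) ^ (1 - δ) := by
  obtain ⟨c₀, m, hc₀, hIW⟩ := IW_all d hd
  set A : ℝ := (m : ℝ) + (m + 1) * τ with hA
  have hA0 : 0 < A := by positivity
  set δ : ℝ := 1 / (2 * (1 + A)) with hδ
  have hδ0 : 0 < δ := by positivity
  have hδ2 : δ ≤ 1 / 2 := by
    rw [hδ]; apply one_div_le_one_div_of_le (by norm_num); linarith
  have hδA : δ * A ≤ 1 / 2 := by
    rw [hδ, one_div_mul_eq_div, div_le_div_iff₀ (by positivity) (by norm_num)]; linarith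
  have hc₀' : (1 : ℝ) ≤ c₀ := by exact_mod_cast hc₀
  have hc₀0 : (0 : ℝ) < c₀ := by linarith
  refine ⟨δ, hδ0, hδ2, ?_⟩
  intro α c hc htype L hL
  set E : ℝ := (c₀ : ℝ) * d.factorial * L with hE
  have hE0 : 0 < E := by positivity
  set D : ℝ := c₀ / c * E ^ τ with hD
  have hD0 : 0 < D := by positivity
  refine ⟨D ^ 2, ?_⟩
  intro f hf hfL N hN hN0 h hh1 hh
  have hNr : (1 : ℝ) ≤ N := by exact_mod_cast hN
  have hN00 : (0 : ℝ) < N := by linarith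
  by_contra hcon
  push Not at hcon
  set u : ℝ := (N : ℝ) ^ δ with hu
  have hu1 : 1 ≤ u := Real.one_le_rpow hNr hδ0.le
  have hu0 : 0 < u := by linarith
  have hNu : (N : ℝ) = u * (N : ℝ) ^ (1 - δ) := by
    rw [hu, ← Real.rpow_add hN00]; norm_num
  have hPh := Ph_poly d f hf.le (h * α)
  have hsum : (fun n : ℕ => (h : ℝ) * (((f.eval (n : ℤ) : ℤ) : ℝ) * α)) =
      fun n : ℕ => (h * α) * ((f.eval (n : ℤ) : ℤ) : ℝ) := by funext n; ring
  have hle : (N : ℝ) ≤ u * ‖∑ n ∈ range N, ee ((h * α) * ((f.eval (n : ℤ) : ℤ) : ℝ))‖ := by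
    rw [hNu]
    apply mul_le_mul_of_nonneg_left _ hu0.le
    have e : ∀ n : ℕ, (h * α) * ((f.eval (n : ℤ) : ℤ) : ℝ) = (h : ℝ) * (((f.eval (n : ℤ) : ℤ) : ℝ) * α) := by
      intro n; ring
    simp only [e]
    exact hcon.le
  obtain ⟨q, hq1, hqu, a, hqa⟩ := hIW N u _ _ hN hu1 hPh hle
  set l : ℤ := f.coeff d with hl
  have hl0 : l ≠ 0 := by
    rw [hl, ← hf, ← Polynomial.leadingCoeff]
    rw [Ne, Polynomial.leadingCoeff_eq_zero]
    rintro rfl
    rw [Polynomial.natDegree_zero] at hf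
    omega
  set t : ℕ := q * h * d.factorial * l.natAbs with ht
  have hla : (1 : ℝ) ≤ (l.natAbs : ℝ) := by
    have : 1 ≤ l.natAbs := Int.natAbs_pos.2 hl0
    exact_mod_cast this
  have hlabs : (l.natAbs : ℝ) = |(l : ℝ)| := by rw [Nat.cast_natAbs, Int.cast_abs]
  have ht1 : 1 ≤ t := by
    rw [ht]
    have := Int.natAbs_pos.2 hl0
    have h5 := Nat.factorial_pos d
    exact Nat.mul_pos (Nat.mul_pos (Nat.mul_pos hq1 hh1) h5) this
  have hr : ∃ m' : ℤ, |(t : ℝ) * α - m'| ≤ c₀ * u ^ m / (N : ℝ) ^ d := by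
    rcases lt_or_gt_of_ne hl0 with hneg | hpos
    · refine ⟨-a, ?_⟩
      have e : (t : ℝ) * α - ((-a : ℤ) : ℝ) = -(q * (h * α * ((d.factorial : ℝ) * (l : ℝ))) - a) := by
        rw [ht]; push_cast; rw [hlabs, abs_of_neg (by exact_mod_cast hneg)]; ring
      rw [e, abs_neg]
      exact hqa
    · refine ⟨a, ?_⟩
      have e : (t : ℝ) * α - (a : ℝ) = q * (h * α * ((d.factorial : ℝ) * (l : ℝ))) - a := by
        rw [ht]; push_cast; rw [hlabs, abs_of_pos (by exact_mod_cast hpos)]; ring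
      rw [e]
      exact hqa
  obtain ⟨m', hm'⟩ := hr
  have h1 := (htype t ht1 m').trans hm'
  have ht0 : (0 : ℝ) < t := by exact_mod_cast ht1
  have htE : (t : ℝ) ≤ E * u ^ (m + 1) := by
    rw [ht, hE]; push_cast
    rw [hlabs]
    calc (q : ℝ) * h * d.factorial * |(l : ℝ)| ≤ (c₀ * u ^ m) * u * d.factorial * L := by
          apply mul_le_mul _ hfL (abs_nonneg _) (by positivity)
          apply mul_le_mul_of_nonneg_right _ (Nat.cast_nonneg _)
          exact mul_le_mul hqu hh (Nat.cast_nonneg _) (by positivity)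
      _ = _ := by ring
  have h2 : (E * u ^ (m + 1)) ^ (-τ) ≤ (t : ℝ) ^ (-τ) := Real.rpow_le_rpow_of_nonpos ht0 htE (by linarith)
  have h3 : c * (E * u ^ (m + 1)) ^ (-τ) ≤ c₀ * u ^ m / (N : ℝ) ^ d :=
    (mul_le_mul_of_nonneg_left h2 hc.le).trans h1
  rw [Real.rpow_neg (by positivity), ← div_eq_mul_inv, div_le_div_iff₀ (by positivity) (by positivity)] at h3
  have h4 : (E * u ^ (m + 1)) ^ τ = E ^ τ * u ^ (((m : ℝ) + 1) * τ) := by
    rw [Real.mul_rpow hE0.le (by positivity), ← Real.rpow_natCast u (m + 1), ← Real.rpow_mul hu0.le]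
    push_cast; rfl
  have h5 : (c₀ : ℝ) * u ^ m * (E * u ^ (m + 1)) ^ τ = c * (D * u ^ A) := by
    rw [h4, hD, hA, Real.rpow_add hu0, Real.rpow_natCast]
    field_simp
  rw [h5] at h3
  have h6 : (N : ℝ) ^ d ≤ D * u ^ A := le_of_mul_le_mul_left h3 hc
  have h7 : u ^ A ≤ (N : ℝ) ^ (1 / 2 : ℝ) := by
    rw [hu, ← Real.rpow_mul hN00.le]
    exact Real.rpow_le_rpow_of_exponent_le hNr hδA
  have h8 : (N : ℝ) ≤ (N : ℝ) ^ d := le_self_pow₀ hNr (by omega)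
  have h9 : (N : ℝ) = (N : ℝ) ^ (1 / 2 : ℝ) * (N : ℝ) ^ (1 / 2 : ℝ) := by
    rw [← Real.rpow_add hN00]; norm_num
  have h10 : 0 < (N : ℝ) ^ (1 / 2 : ℝ) := Real.rpow_pos_of_pos hN00 _
  have h11 : (N : ℝ) ≤ D * (N : ℝ) ^ (1 / 2 : ℝ) :=
    (h8.trans h6).trans (mul_le_mul_of_nonneg_left h7 hD0.le)
  have h12 : (N : ℝ) ^ (1 / 2 : ℝ) ≤ D := by
    have h14 : (N : ℝ) ^ (1 / 2 : ℝ) * (N : ℝ) ^ (1 / 2 : ℝ) ≤ D * (N : ℝ) ^ (1 / 2 : ℝ) := by
      rw [← h9]; exact h11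
    exact le_of_mul_le_mul_right h14 h10
  have h13 : (N : ℝ) ≤ D ^ 2 := by
    rw [h9, sq]
    exact mul_le_mul h12 h12 h10.le hD0.le
  linarith

/-- values of polynomials close to the integers, small distances -/
lemma poly_near (d : ℕ) (hd : 1 ≤ d) (τ : ℝ) (hτ : 0 < τ) : ∃ δ : ℝ, 0 < δ ∧ δ ≤ 1 / 2 ∧
    ∀ α c : ℝ, 0 < c → (∀ t : ℕ, 1 ≤ t → ∀ m : ℤ, c * (t : ℝ) ^ (-τ) ≤ |(t : ℝ) * α - m|) →
    ∀ L : ℝ, 1 ≤ L → ∃ C : ℝ, 0 ≤ C ∧ ∀ f : ℤ[X], f.natDegree = d → |((f.coeff d : ℤ) : ℝ)| ≤ L →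
    ∀ (a : ℤ) (N : ℕ), 1 ≤ N → ∀ δ' ρ : ℝ, 0 < δ' → δ' ≤ δ → ρ ≤ (N : ℝ) ^ (-δ') / 8 → ∀ G : Finset ℤ,
    (∀ n ∈ G, a ≤ n ∧ n < a + N ∧ ∃ m : ℤ, |((f.eval n : ℤ) : ℝ) * α - m| ≤ ρ) →
      (G.card : ℝ) ≤ C * (N : ℝ) ^ (1 - δ') := by
  classical
  obtain ⟨δ, hδ0, hδ2, hW⟩ := weyl_type d hd τ hτ
  refine ⟨δ, hδ0, hδ2, fun α c hc htype L hL => ?_⟩
  obtain ⟨N₀, hN₀⟩ := hW α c hc htype L hL
  refine ⟨12 + max N₀ 1, by positivity, ?_⟩
  intro f hf hfL a N hN δ' ρ hδ'0 hδ' hρ G hG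
  have hNr : (1 : ℝ) ≤ N := by exact_mod_cast hN
  have hN0 : (0 : ℝ) < N := by linarith
  have hpow1 : (1 : ℝ) ≤ (N : ℝ) ^ (1 - δ') := Real.one_le_rpow hNr (by linarith)
  -- translate to natural numbers
  set G' : Finset ℕ := G.image (fun n => (n - a).toNat) with hG'
  have hinj : Set.InjOn (fun n : ℤ => (n - a).toNat) (G : Set ℤ) := by
    intro x hx y hy hxy
    have h1 := (hG x hx).1
    have h2 := (hG y hy).1
    simp only at hxy
    omega
  have hcard : G'.card = G.card := card_image_of_injOn hinj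
  set g : ℤ[X] := taylor a f with hg
  have hgd : g.natDegree = d := by rw [hg, natDegree_taylor, hf]
  have hgc : g.coeff d = f.coeff d := by
    rw [hg, ← hf, coeff_taylor_natDegree, Polynomial.leadingCoeff]
  have hmem : ∀ n ∈ G', n < N ∧ ∃ m : ℤ, |((g.eval (n : ℤ) : ℤ) : ℝ) * α - m| ≤ ρ := by
    intro n hn
    rw [hG', mem_image] at hn
    obtain ⟨x, hx, rfl⟩ := hn
    obtain ⟨h1, h2, h3⟩ := hG x hx
    refine ⟨by omega, ?_⟩
    have e : (((x - a).toNat : ℕ) : ℤ) + a = x := by omega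
    rw [hg, taylor_eval, e]
    exact h3
  rcases le_or_gt (N : ℝ) N₀ with hsmall | hlarge
  · have h1 : G'.card ≤ N := by
      have : G' ⊆ range N := fun n hn => mem_range.2 (hmem n hn).1
      simpa using card_le_card this
    have h2 : (G.card : ℝ) ≤ N := by rw [← hcard]; exact_mod_cast h1
    have h3 : N₀ ≤ max N₀ 1 := le_max_left _ _
    nlinarith
  · set J : ℕ := ⌊(N : ℝ) ^ δ'⌋₊ with hJ
    have hNδ : (1 : ℝ) ≤ (N : ℝ) ^ δ' := Real.one_le_rpow hNr hδ'0.le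
    have hJ1 : 1 ≤ J := Nat.le_floor (by exact_mod_cast hNδ)
    have hJle : (J : ℝ) ≤ (N : ℝ) ^ δ' := Nat.floor_le (by positivity)
    have hJ0 : (0 : ℝ) < J := by exact_mod_cast hJ1
    have hJge : (N : ℝ) ^ δ' / 2 ≤ J := by
      have h1 := Nat.lt_floor_add_one ((N : ℝ) ^ δ')
      have h2 : (1 : ℝ) ≤ J := by exact_mod_cast hJ1
      rw [← hJ] at h1
      linarith
    have hJρ : (J : ℝ) * ρ ≤ 1 / 8 := by
      rcases le_or_gt ρ 0 with h0 | h0
      · nlinarith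
      · calc (J : ℝ) * ρ ≤ (N : ℝ) ^ δ' * ((N : ℝ) ^ (-δ') / 8) := mul_le_mul hJle hρ h0.le (by positivity)
          _ = ((N : ℝ) ^ δ' * (N : ℝ) ^ (-δ')) / 8 := by ring
          _ = 1 / 8 := by rw [← Real.rpow_add hN0]; norm_num
    have h1 := near_count (fun n => ((g.eval (n : ℤ) : ℤ) : ℝ) * α) N J hJ1
      (M := (N : ℝ) ^ (1 - δ)) (by positivity) hJρ (by
        intro h hh1 hhJ
        apply hN₀ g hgd (by rw [hgc]; exact hfL) N hN hlarge h hh1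
        have h2 : (h : ℝ) ≤ J := by exact_mod_cast hhJ.le
        exact (h2.trans hJle).trans (Real.rpow_le_rpow_of_exponent_le hNr hδ')) G' hmem
    rw [hcard] at h1
    have h2 : 4 * (N : ℝ) / J ≤ 8 * (N : ℝ) ^ (1 - δ') := by
      rw [div_le_iff₀ hJ0]
      have e : (N : ℝ) = (N : ℝ) ^ (1 - δ') * (N : ℝ) ^ δ' := by
        rw [← Real.rpow_add hN0]; norm_num
      calc 4 * (N : ℝ) = 8 * (N : ℝ) ^ (1 - δ') * ((N : ℝ) ^ δ' / 2) := by nth_rewrite 1 [e]; ring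
        _ ≤ _ := mul_le_mul_of_nonneg_left hJge (by positivity)
    have h3 : (N : ℝ) ^ (1 - δ) ≤ (N : ℝ) ^ (1 - δ') :=
      Real.rpow_le_rpow_of_exponent_le hNr (by linarith)
    have h4 : (0 : ℝ) ≤ max N₀ 1 := by positivity
    nlinarith

lemma finite_of_bound {α : Type*} {S : Set α} {B : ℝ}
    (h : ∀ F : Finset α, (∀ x ∈ F, x ∈ S) → (F.card : ℝ) ≤ B) : S.Finite ∧ (S.ncard : ℝ) ≤ B := by
  classical
  have hfin : S.Finite := by
    by_contra hinf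
    obtain ⟨n, hn⟩ := exists_nat_gt B
    obtain ⟨F, hF, hc⟩ := Set.Infinite.exists_subset_card_eq hinf n
    have := h F (fun x hx => hF (by simpa using hx))
    rw [hc] at this
    linarith
  refine ⟨hfin, ?_⟩
  rw [Set.ncard_eq_toFinset_card _ hfin]
  exact h _ (fun x hx => by simpa using hx)

/-- **Polynomials with values in sums.** -/
theorem poly_sums (d : ℕ) (hd : 1 ≤ d) (τ : ℝ) (hτ : 0 < τ) : ∃ δ : ℝ, 0 < δ ∧ δ ≤ 1 / 2 ∧
    ∀ α c : ℝ, 0 < c → (∀ t : ℕ, 1 ≤ t → ∀ m : ℤ, c * (t : ℝ) ^ (-τ) ≤ |(t : ℝ) * α - m|) →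
    ∀ (K : ℝ) (S : Set ℤ), 0 ≤ K → Few α K 1 S → ∀ L : ℝ, 1 ≤ L → ∀ k : ℕ, ∃ C : ℝ, 0 ≤ C ∧
    ∀ m : Fin k → ℤ, (∀ i, |(m i : ℝ)| ≤ L) → ∀ f : ℤ[X], f.natDegree = d → |((f.coeff d : ℤ) : ℝ)| ≤ L →
    ∀ (a : ℤ) (N : ℕ), 1 ≤ N → ∀ F : Finset ℤ,
    (∀ n ∈ F, a ≤ n ∧ n < a + N ∧ ∃ s : Fin k → ℤ, (∀ i, s i ∈ S) ∧ f.eval n = ∑ i, m i * s i) →
      (F.card : ℝ) ≤ C * (N : ℝ) ^ (1 - δ / 2 ^ k) := by
  classical
  obtain ⟨δ, hδ0, hδ2, hnear⟩ := poly_near d hd τ hτ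
  refine ⟨δ, hδ0, hδ2, fun α c hc htype K S hK hS L hL k => ?_⟩
  obtain ⟨C₁, hC₁, hnear⟩ := hnear α c hc htype L hL
  induction k with
  | zero =>
    refine ⟨d, Nat.cast_nonneg _, ?_⟩
    intro m _ f hf _ a N hN F hF
    have hNr : (1 : ℝ) ≤ N := by exact_mod_cast hN
    have hf0 : f ≠ 0 := by
      rintro rfl
      rw [natDegree_zero] at hf
      omega
    have h1 : F ⊆ f.roots.toFinset := by
      intro n hn
      obtain ⟨-, -, s, -, hs⟩ := hF n hn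
      rw [Multiset.mem_toFinset, mem_roots hf0, IsRoot.def, hs]
      simp
    have h2 : F.card ≤ d := by
      refine (card_le_card h1).trans ((Multiset.toFinset_card_le _).trans ?_)
      rw [← hf]
      exact card_roots' f
    have h3 : (F.card : ℝ) ≤ d := by exact_mod_cast h2
    have h4 : (1 : ℝ) ≤ (N : ℝ) ^ (1 - δ / 2 ^ 0) := Real.one_le_rpow hNr (by norm_num; linarith)
    have h5 : (0 : ℝ) ≤ d := Nat.cast_nonneg _
    nlinarith
  | succ k ih =>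
    obtain ⟨C, hC, ih⟩ := ih
    set B : ℝ := 8 * ((k : ℝ) + 1) * L with hB
    have hB0 : 0 < B := by positivity
    refine ⟨C₁ + ((k : ℝ) + 1) * (K * B) * C, by positivity, ?_⟩
    intro m hm f hf hfL a N hN F hF
    have hNr : (1 : ℝ) ≤ N := by exact_mod_cast hN
    have hN0 : (0 : ℝ) < N := by linarith
    set δ' : ℝ := δ / 2 ^ (k + 1) with hδ'
    have hδ'0 : 0 < δ' := by positivity
    have h2k : (1 : ℝ) ≤ 2 ^ (k + 1) := one_le_pow₀ (by norm_num)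
    have hδ'δ : δ' ≤ δ := div_le_self hδ0.le h2k
    have hδk : δ / 2 ^ k = δ' + δ' := by rw [hδ', pow_succ]; field_simp; norm_num
    set r : ℝ := (N : ℝ) ^ (-δ') / B with hr
    have hr0 : 0 < r := by positivity
    -- the exceptional elements
    have hfin := finite_of_bound (S := {s : ℤ | s ∈ S ∧ ∀ m : ℤ, r ≤ |(s : ℝ) * α - m|})
      (B := K * r ^ (-(1 : ℝ))) (fun E hE => hS r hr0 E hE)
    obtain ⟨hfin, hcardE⟩ := hfin
    set E : Finset ℤ := hfin.toFinset with hE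
    have hEcard : (E.card : ℝ) ≤ K * B * (N : ℝ) ^ δ' := by
      rw [Set.ncard_eq_toFinset_card _ hfin] at hcardE
      refine hcardE.trans (le_of_eq ?_)
      rw [Real.rpow_neg_one, hr, inv_div, Real.rpow_neg hN0.le, div_inv_eq_mul]
      ring
    set G : Finset ℤ := F.filter (fun n => ∃ m' : ℤ, |((f.eval n : ℤ) : ℝ) * α - m'| ≤ (N : ℝ) ^ (-δ') / 8) with hG
    set Fe : Fin (k + 1) → ℤ → Finset ℤ := fun p s₀ => F.filter (fun n => ∃ s : Fin k → ℤ, (∀ i, s i ∈ S) ∧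
      (f - Polynomial.C (m p * s₀)).eval n = ∑ i, m (p.succAbove i) * s i) with hFe
    have hcover : F ⊆ G ∪ Finset.univ.biUnion (fun p => E.biUnion (fun s₀ => Fe p s₀)) := by
      intro n hn
      obtain ⟨-, -, s, hs, hfs⟩ := hF n hn
      rw [mem_union]
      by_cases hall : ∀ i, ∃ m' : ℤ, |(s i : ℝ) * α - m'| ≤ r
      · left
        choose m' hm' using hall
        rw [hG, mem_filter]
        refine ⟨hn, ∑ i, m i * m' i, ?_⟩
        have e : ((f.eval n : ℤ) : ℝ) * α - ((∑ i, m i * m' i : ℤ) : ℝ) =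
            ∑ i, (m i : ℝ) * ((s i : ℝ) * α - m' i) := by
          rw [hfs]
          push_cast
          rw [sum_mul, ← sum_sub_distrib]
          exact sum_congr rfl (fun i _ => by ring)
        rw [e]
        calc |∑ i, (m i : ℝ) * ((s i : ℝ) * α - m' i)| ≤ ∑ i, |(m i : ℝ) * ((s i : ℝ) * α - m' i)| :=
              abs_sum_le_sum_abs _ _
          _ ≤ ∑ i : Fin (k + 1), L * r := by
              apply sum_le_sum
              intro i _
              rw [abs_mul]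
              exact mul_le_mul (hm i) (hm' i) (abs_nonneg _) (by linarith)
          _ = (N : ℝ) ^ (-δ') / 8 := by
              rw [sum_const, card_univ, Fintype.card_fin, nsmul_eq_mul, hr, hB]
              push_cast
              field_simp
      · right
        push Not at hall
        obtain ⟨p, hp⟩ := hall
        rw [mem_biUnion]
        refine ⟨p, mem_univ _, ?_⟩
        rw [mem_biUnion]
        refine ⟨s p, ?_, ?_⟩
        · rw [hE, Set.Finite.mem_toFinset]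
          exact ⟨hs p, fun m' => (hp m').le⟩
        · rw [hFe, mem_filter]
          refine ⟨hn, fun i => s (p.succAbove i), fun i => hs _, ?_⟩
          rw [eval_sub, eval_C, hfs, Fin.sum_univ_succAbove _ p]
          ring
    have hGc : (G.card : ℝ) ≤ C₁ * (N : ℝ) ^ (1 - δ') := by
      apply hnear f hf hfL a N hN δ' ((N : ℝ) ^ (-δ') / 8) hδ'0 hδ'δ le_rfl G
      intro n hn
      rw [hG, mem_filter] at hn
      exact ⟨(hF n hn.1).1, (hF n hn.1).2.1, hn.2⟩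
    have hFc : ∀ p : Fin (k + 1), ∀ s₀ ∈ E, ((Fe p s₀).card : ℝ) ≤ C * (N : ℝ) ^ (1 - δ / 2 ^ k) := by
      intro p s₀ _
      apply ih (fun i => m (p.succAbove i)) (fun i => hm _) (f - Polynomial.C (m p * s₀))
        (by rw [natDegree_sub_C, hf]) (by
          rw [coeff_sub, coeff_C_of_ne_zero (by omega), sub_zero]
          exact hfL) a N hN
      intro n hn
      rw [hFe, mem_filter] at hn
      exact ⟨(hF n hn.1).1, (hF n hn.1).2.1, hn.2⟩
    have h1 : (F.card : ℝ) ≤ (G.card : ℝ) + ∑ p : Fin (k + 1), ∑ s₀ ∈ E, ((Fe p s₀).card : ℝ) := by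
      have h2 := (card_le_card hcover).trans (card_union_le _ _)
      have h3 : (Finset.univ.biUnion (fun p => E.biUnion (fun s₀ => Fe p s₀))).card ≤
          ∑ p : Fin (k + 1), ∑ s₀ ∈ E, (Fe p s₀).card :=
        card_biUnion_le.trans (sum_le_sum fun p _ => card_biUnion_le)
      exact_mod_cast h2.trans (Nat.add_le_add_left h3 _)
    have h2 : ∑ p : Fin (k + 1), ∑ s₀ ∈ E, ((Fe p s₀).card : ℝ) ≤
        ((k : ℝ) + 1) * (E.card * (C * (N : ℝ) ^ (1 - δ / 2 ^ k))) := by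
      calc ∑ p : Fin (k + 1), ∑ s₀ ∈ E, ((Fe p s₀).card : ℝ)
          ≤ ∑ p : Fin (k + 1), ∑ s₀ ∈ E, (C * (N : ℝ) ^ (1 - δ / 2 ^ k)) :=
            sum_le_sum fun p _ => sum_le_sum fun s₀ hs => hFc p s₀ hs
        _ = _ := by
            rw [sum_const, sum_const, card_univ, Fintype.card_fin, nsmul_eq_mul, nsmul_eq_mul]
            push_cast; ring
    have h3 : (E.card : ℝ) * (C * (N : ℝ) ^ (1 - δ / 2 ^ k)) ≤ K * B * C * (N : ℝ) ^ (1 - δ') := by
      calc (E.card : ℝ) * (C * (N : ℝ) ^ (1 - δ / 2 ^ k))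
          ≤ (K * B * (N : ℝ) ^ δ') * (C * (N : ℝ) ^ (1 - δ / 2 ^ k)) :=
            mul_le_mul_of_nonneg_right hEcard (by positivity)
        _ = K * B * C * ((N : ℝ) ^ δ' * (N : ℝ) ^ (1 - δ / 2 ^ k)) := by ring
        _ = K * B * C * (N : ℝ) ^ (1 - δ') := by
            rw [← Real.rpow_add hN0, hδk]
            congr 2
            ring
    have h4 : ((k : ℝ) + 1) * (E.card * (C * (N : ℝ) ^ (1 - δ / 2 ^ k))) ≤
        ((k : ℝ) + 1) * (K * B * C * (N : ℝ) ^ (1 - δ')) := mul_le_mul_of_nonneg_left h3 (by positivity)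
    calc (F.card : ℝ) ≤ C₁ * (N : ℝ) ^ (1 - δ') + ((k : ℝ) + 1) * (K * B * C * (N : ℝ) ^ (1 - δ')) := by
          linarith
      _ = _ := by ring

end Pool.Agent.V8H18.CL
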